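import Pool.Agent.helper56.CT.SpecG

/-!
# Project cd, module G3: number of colourings constant on the circuits
-/

namespace CT
open Finset

section
variable {D : Type} [DecidableEq D] [Fintype D]

open Classical in
/-- the functions constant along the strands, with a side condition -/
noncomputable def G3set (A : Finset D) (e : D → D) (P : (D → Bool) → Prop) : Finset (D → Bool) :=
  (univ : Finset (D → Bool)).filter fun f =>
    (∀ d ∈ A, f (e d) = f d) ∧ (∀ d, d ∉ A → f d = false) ∧ P f

theorem mem_G3set {A : Finset D} {e : D → D} {P : (D → Bool) → Prop} {f : D → Bool} :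
    f ∈ G3set A e P ↔ (∀ d ∈ A, f (e d) = f d) ∧ (∀ d, d ∉ A → f d = false) ∧ P f := by
  unfold G3set
  simp only [mem_filter, mem_univ, true_and]

/-- their number -/
noncomputable def G3cnt (A : Finset D) (e : D → D) (P : (D → Bool) → Prop) : ℕ :=
  (G3set A e P).card

theorem G3_join_eq {A : Finset D} {e : D → D} (h : Act A e) {x y : D} (hx : x ∈ A) (hy : y ∈ A)
    (P : (D → Bool) → Prop)
    (hP : ∀ f g : D → Bool, (∀ d, d ≠ x → d ≠ y → f d = g d) → (P f ↔ P g)) (hxy : e x = y) :
    G3cnt A e (fun f => f x = f y ∧ P f) = 2 * G3cnt ((A.erase x).erase y) (join e x y) P := by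
  classical
  obtain ⟨he, hA⟩ := h
  have hyx : e y = x := by rw [← hxy, he]
  unfold G3cnt
  have e2 : (2 : ℕ) = (univ : Finset Bool).card := by simp
  rw [e2, ← card_product]
  refine card_nbij' (fun f => (f x, fun d => if d = x ∨ d = y then false else f d))
    (fun bg => fun d => if d = x ∨ d = y then bg.1 else bg.2 d) ?_ ?_ ?_ ?_
  · intro f hf
    obtain ⟨h1, h2, h3, h4⟩ := mem_G3set.mp (mem_coe.mp hf)
    refine mem_coe.mpr (mem_product.mpr ⟨mem_univ _, mem_G3set.mpr ⟨?_, ?_, ?_⟩⟩)
    · intro d hd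
      rw [mem_erase, mem_erase] at hd
      obtain ⟨hdy, hdx, hdA⟩ := hd
      have k1 : e d ≠ x := fun h => hdy (by rw [← he d, h, hxy])
      have k2 : e d ≠ y := fun h => hdx (by rw [← he d, h, hyx])
      have k3 : join e x y d = e d := by simp [join, hdx, hdy, k1, k2]
      simp only [k3, k1, k2, hdx, hdy, or_self, if_false]
      exact h1 d hdA
    · intro d hd
      simp only [ite_eq_left_iff]
      intro hn
      rw [not_or] at hn
      apply h2
      intro hdA
      exact hd (mem_erase.mpr ⟨hn.2, mem_erase.mpr ⟨hn.1, hdA⟩⟩)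
    · refine (hP f _ ?_).mp h4
      intro d hdx hdy
      simp [hdx, hdy]
  · rintro ⟨b, g⟩ hg
    obtain ⟨-, hg⟩ := mem_product.mp (mem_coe.mp hg)
    obtain ⟨h1, h2, h4⟩ := mem_G3set.mp hg
    refine mem_coe.mpr (mem_G3set.mpr ⟨?_, ?_, ?_, ?_⟩)
    · intro d hd
      by_cases hdx : d = x
      · subst hdx; simp [hxy]
      by_cases hdy : d = y
      · subst hdy; simp [hyx]
      have k1 : e d ≠ x := fun h => hdy (by rw [← he d, h, hxy])
      have k2 : e d ≠ y := fun h => hdx (by rw [← he d, h, hyx])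
      have k3 : join e x y d = e d := by simp [join, hdx, hdy, k1, k2]
      have k4 := h1 d (mem_erase.mpr ⟨hdy, mem_erase.mpr ⟨hdx, hd⟩⟩)
      rw [k3] at k4
      simp only [k1, k2, hdx, hdy, or_self, if_false]
      exact k4
    · intro d hd
      have hdx : d ≠ x := fun h => hd (h ▸ hx)
      have hdy : d ≠ y := fun h => hd (h ▸ hy)
      simp only [hdx, hdy, or_self, if_false]
      exact h2 d (fun h => hd (mem_of_mem_erase (mem_of_mem_erase h)))
    · simp
    · refine (hP g _ ?_).mp h4
      intro d hdx hdy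
      simp [hdx, hdy]
  · intro f hf
    obtain ⟨h1, h2, h3, h4⟩ := mem_G3set.mp (mem_coe.mp hf)
    funext d
    by_cases hdx : d = x
    · subst hdx; simp
    by_cases hdy : d = y
    · subst hdy; simpa using h3
    simp [hdx, hdy]
  · rintro ⟨b, g⟩ hg
    obtain ⟨-, hg⟩ := mem_product.mp (mem_coe.mp hg)
    obtain ⟨h1, h2, h4⟩ := mem_G3set.mp hg
    refine Prod.ext (by simp) ?_
    funext d
    by_cases hdx : d = x
    · subst hdx
      have := h2 d (fun h => (mem_erase.mp (mem_of_mem_erase h)).1 rfl)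
      simpa using this.symm
    by_cases hdy : d = y
    · subst hdy
      have := h2 d (fun h => (mem_erase.mp h).1 rfl)
      simpa using this.symm
    simp [hdx, hdy]

theorem G3_join_ne {A : Finset D} {e : D → D} (h : Act A e) {x y : D} (hx : x ∈ A) (hy : y ∈ A)
    (P : (D → Bool) → Prop)
    (hP : ∀ f g : D → Bool, (∀ d, d ≠ x → d ≠ y → f d = g d) → (P f ↔ P g)) (hxy : e x ≠ y) :
    G3cnt A e (fun f => f x = f y ∧ P f) = G3cnt ((A.erase x).erase y) (join e x y) P := by
  classical
  obtain ⟨he, hA⟩ := h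
  have hyx : e y ≠ x := fun h => hxy (by rw [← h, he])
  have hxx : e x ≠ x := (hA x).mpr hx
  have hyy : e y ≠ y := (hA y).mpr hy
  unfold G3cnt
  refine card_nbij' (fun f => fun d => if d = x ∨ d = y then false else f d)
    (fun g => fun d => if d = x ∨ d = y then g (e d) else g d) ?_ ?_ ?_ ?_
  · intro f hf
    obtain ⟨h1, h2, h3, h4⟩ := mem_G3set.mp (mem_coe.mp hf)
    refine mem_coe.mpr (mem_G3set.mpr ⟨?_, ?_, ?_⟩)
    · intro d hd
      rw [mem_erase, mem_erase] at hd
      obtain ⟨hdy, hdx, hdA⟩ := hd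
      by_cases k1 : e d = x
      · have k3 : join e x y d = e y := by simp [join, hdx, hdy, k1]
        have k4 : d = e x := by rw [← k1, he]
        simp only [k3, hyx, hyy, hdx, hdy, or_self, if_false]
        rw [h1 y hy, ← h3, k4, h1 x hx]
      by_cases k2 : e d = y
      · have k3 : join e x y d = e x := by
          unfold join
          rw [if_neg (by simp [hdx, hdy]), if_neg k1, if_pos k2]
        have k4 : d = e y := by rw [← k2, he]
        simp only [k3, hxy, hxx, hdx, hdy, or_self, if_false]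
        rw [h1 x hx, h3, k4, h1 y hy]
      have k3 : join e x y d = e d := by simp [join, hdx, hdy, k1, k2]
      simp only [k3, k1, k2, hdx, hdy, or_self, if_false]
      exact h1 d hdA
    · intro d hd
      simp only [ite_eq_left_iff]
      intro hn
      rw [not_or] at hn
      apply h2
      intro hdA
      exact hd (mem_erase.mpr ⟨hn.2, mem_erase.mpr ⟨hn.1, hdA⟩⟩)
    · refine (hP f _ ?_).mp h4
      intro d hdx hdy
      simp [hdx, hdy]
  · intro g hg
    obtain ⟨h1, h2, h4⟩ := mem_G3set.mp (mem_coe.mp hg)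
    have hex : e x ∈ A := (hA (e x)).mp (by rw [he]; exact hxx.symm)
    refine mem_coe.mpr (mem_G3set.mpr ⟨?_, ?_, ?_, ?_⟩)
    · intro d hd
      by_cases hdx : d = x
      · subst hdx; simp [hxx, hxy]
      by_cases hdy : d = y
      · subst hdy; simp [hyy, hyx]
      by_cases k1 : e d = x
      · have k4 : d = e x := by rw [← k1, he]
        rw [k1]
        simp only [true_or, if_true, hdx, hdy, or_self, if_false]
        rw [← k4]
      by_cases k2 : e d = y
      · have k4 : d = e y := by rw [← k2, he]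
        rw [k2]
        simp only [or_true, if_true, hdx, hdy, or_self, if_false]
        rw [← k4]
      have k3 : join e x y d = e d := by simp [join, hdx, hdy, k1, k2]
      have k4 := h1 d (mem_erase.mpr ⟨hdy, mem_erase.mpr ⟨hdx, hd⟩⟩)
      rw [k3] at k4
      simp only [k1, k2, hdx, hdy, or_self, if_false]
      exact k4
    · intro d hd
      have hdx : d ≠ x := fun h => hd (h ▸ hx)
      have hdy : d ≠ y := fun h => hd (h ▸ hy)
      simp only [hdx, hdy, or_self, if_false]
      exact h2 d (fun h => hd (mem_of_mem_erase (mem_of_mem_erase h)))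
    · simp only [true_or, or_true, if_true]
      have k5 : join e x y (e x) = e y := by simp [join, hxx, hxy, he]
      have k4 := h1 (e x) (mem_erase.mpr ⟨hxy, mem_erase.mpr ⟨hxx, hex⟩⟩)
      rw [k5] at k4
      exact k4.symm
    · refine (hP g _ ?_).mp h4
      intro d hdx hdy
      simp [hdx, hdy]
  · intro f hf
    obtain ⟨h1, h2, h3, h4⟩ := mem_G3set.mp (mem_coe.mp hf)
    funext d
    by_cases hdx : d = x
    · subst hdx
      simp only [true_or, if_true, hxx, hxy, or_self, if_false]
      exact h1 d hx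
    by_cases hdy : d = y
    · subst hdy
      simp only [or_true, if_true, hyy, hyx, or_self, if_false]
      exact h1 d hy
    simp [hdx, hdy]
  · intro g hg
    obtain ⟨h1, h2, h4⟩ := mem_G3set.mp (mem_coe.mp hg)
    funext d
    by_cases hdx : d = x
    · subst hdx
      have := h2 d (fun h => (mem_erase.mp (mem_of_mem_erase h)).1 rfl)
      simp [this]
    by_cases hdy : d = y
    · subst hdy
      have := h2 d (fun h => (mem_erase.mp h).1 rfl)
      simp [this]
    simp [hdx, hdy]

theorem G3_join {A : Finset D} {e : D → D} (h : Act A e) {x y : D} (hx : x ∈ A) (hy : y ∈ A)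
    (P : (D → Bool) → Prop)
    (hP : ∀ f g : D → Bool, (∀ d, d ≠ x → d ≠ y → f d = g d) → (P f ↔ P g)) :
    G3cnt A e (fun f => f x = f y ∧ P f) =
      2 ^ lp e x y * G3cnt ((A.erase x).erase y) (join e x y) P := by
  unfold lp
  split_ifs with h1
  · rw [G3_join_eq h hx hy P hP h1, pow_one]
  · rw [G3_join_ne h hx hy P hP h1, pow_zero, one_mul]

end

theorem G3_pair : ∀ σ φ : Fin 4 → Bool,
    ((univ : Finset (Fin 4)).filter fun i => σ i = true).card = 2 →
    ((∀ i j, σ i = σ j → φ i = φ j) ↔
      φ (pr (if σ 0 = σ 1 then 0 else if σ 0 = σ 2 then 1 else 2)).1 =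
        φ (pr (if σ 0 = σ 1 then 0 else if σ 0 = σ 2 then 1 else 2)).2.1 ∧
      φ (pr (if σ 0 = σ 1 then 0 else if σ 0 = σ 2 then 1 else 2)).2.2.1 =
        φ (pr (if σ 0 = σ 1 then 0 else if σ 0 = σ 2 then 1 else 2)).2.2.2) := by
  decide

theorem G3_pr (t : Fin 3) : (pr t).1 ≠ (pr t).2.1 ∧ (pr t).1 ≠ (pr t).2.2.1 ∧
    (pr t).1 ≠ (pr t).2.2.2 ∧ (pr t).2.1 ≠ (pr t).2.2.1 ∧ (pr t).2.1 ≠ (pr t).2.2.2 ∧
    (pr t).2.2.1 ≠ (pr t).2.2.2 ∧ ∀ i : Fin 4, i = (pr t).1 ∨ i = (pr t).2.1 ∨
      i = (pr t).2.2.1 ∨ i = (pr t).2.2.2 := by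
  revert t; decide

theorem G3_main {V : Type} [Fintype V] [DecidableEq V] (s : V × Fin 4 → Bool) (L : List V) :
    ∀ e : V × Fin 4 → V × Fin 4, L.Nodup → Act (dts L.toFinset) e →
    (∀ u ∈ L, ((univ : Finset (Fin 4)).filter fun i => s (u, i) = true).card = 2) →
    G3cnt (dts L.toFinset) e
      (fun f => ∀ u ∈ L, ∀ i j, s (u, i) = s (u, j) → f (u, i) = f (u, j)) = 2 ^ kl s L e := by
  classical
  induction L with
  | nil =>
    intro e _ _ _
    unfold G3cnt
    rw [show kl s [] e = 0 from rfl, pow_zero, card_eq_one]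
    refine ⟨fun _ => false, ?_⟩
    ext f
    rw [mem_G3set, mem_singleton]
    constructor
    · rintro ⟨-, h2, -⟩
      funext d
      exact h2 d (by simp [dts])
    · rintro rfl
      exact ⟨fun _ _ => rfl, fun _ _ => rfl, fun _ _ _ _ _ => rfl⟩
  | cons u L ih =>
    intro e hn hA hs
    obtain ⟨huL, hnL⟩ := List.nodup_cons.mp hn
    set t := tp s u with ht
    obtain ⟨n1, n2, n3, n4, n5, n6, hcov⟩ := G3_pr t
    have hmem : ∀ i : Fin 4, (u, i) ∈ dts (u :: L).toFinset := fun i => by simp [dts]
    have hA1 := join_act hA (hmem (pr t).1) (hmem (pr t).2.1)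
      (fun h => n1 (congrArg Prod.snd h))
    have hne : ∀ {i j : Fin 4}, i ≠ j → ((u, i) : V × Fin 4) ≠ (u, j) := fun h h' =>
      h (congrArg Prod.snd h')
    have hm3 : (u, (pr t).2.2.1) ∈
        ((dts (u :: L).toFinset).erase (u, (pr t).1)).erase (u, (pr t).2.1) :=
      mem_erase.mpr ⟨hne n4.symm, mem_erase.mpr ⟨hne n2.symm, hmem _⟩⟩
    have hm4 : (u, (pr t).2.2.2) ∈
        ((dts (u :: L).toFinset).erase (u, (pr t).1)).erase (u, (pr t).2.1) :=
      mem_erase.mpr ⟨hne n5.symm, mem_erase.mpr ⟨hne n3.symm, hmem _⟩⟩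
    have hA2 := join_act hA1 hm3 hm4 (hne n6)
    have hset : (((((dts (u :: L).toFinset).erase (u, (pr t).1)).erase (u, (pr t).2.1)).erase
        (u, (pr t).2.2.1)).erase (u, (pr t).2.2.2)) = dts L.toFinset := by
      ext ⟨w, i⟩
      simp only [mem_erase, dts, mem_product, List.mem_toFinset, List.mem_cons, mem_univ, and_true,
        ne_eq, Prod.mk.injEq, not_and]
      constructor
      · rintro ⟨k4, k3, k2, k1, hw | hw⟩
        · exfalso
          rcases hcov i with h | h | h | h
          · exact k1 hw h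
          · exact k2 hw h
          · exact k3 hw h
          · exact k4 hw h
        · exact hw
      · intro hw
        have hwu : w ≠ u := fun h => huL (h ▸ hw)
        exact ⟨fun h => absurd h hwu, fun h => absurd h hwu, fun h => absurd h hwu,
          fun h => absurd h hwu, Or.inr hw⟩
    have hQ : ∀ f g : V × Fin 4 → Bool, (∀ d : V × Fin 4, d.1 ≠ u → f d = g d) →
        ((∀ w ∈ L, ∀ i j, s (w, i) = s (w, j) → f (w, i) = f (w, j)) ↔
        ∀ w ∈ L, ∀ i j, s (w, i) = s (w, j) → g (w, i) = g (w, j)) := by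
      intro f g hfg
      have hw : ∀ w ∈ L, ∀ i, f (w, i) = g (w, i) := fun w hw i =>
        hfg (w, i) (fun h => huL (by rw [← h]; exact hw))
      constructor
      · intro h w hwL i j hij
        rw [← hw w hwL, ← hw w hwL]
        exact h w hwL i j hij
      · intro h w hwL i j hij
        rw [hw w hwL, hw w hwL]
        exact h w hwL i j hij
    have hstep : (fun f : V × Fin 4 → Bool =>
        ∀ w ∈ u :: L, ∀ i j, s (w, i) = s (w, j) → f (w, i) = f (w, j)) =
        fun f => f (u, (pr t).1) = f (u, (pr t).2.1) ∧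
          (f (u, (pr t).2.2.1) = f (u, (pr t).2.2.2) ∧
          ∀ w ∈ L, ∀ i j, s (w, i) = s (w, j) → f (w, i) = f (w, j)) := by
      funext f
      have h1 := G3_pair (fun i => s (u, i)) (fun i => f (u, i)) (hs u List.mem_cons_self)
      have ht' : (if s (u, 0) = s (u, 1) then (0 : Fin 3) else
          if s (u, 0) = s (u, 2) then 1 else 2) = t := rfl
      simp only [ht'] at h1
      rw [List.forall_mem_cons, h1, and_assoc]
    rw [hstep, G3_join hA (hmem _) (hmem _) _ (by
        intro f g hfg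
        rw [hfg _ (hne n2.symm) (hne n4.symm), hfg _ (hne n3.symm) (hne n5.symm),
          hQ f g (fun d hd => hfg d (fun h => hd (by rw [h])) (fun h => hd (by rw [h])))]),
      G3_join hA1 hm3 hm4 _ (by
        intro f g hfg
        exact hQ f g (fun d hd => hfg d (fun h => hd (by rw [h])) (fun h => hd (by rw [h])))),
      hset]
    rw [hset] at hA2
    have h3 := ih (sm e u t) hnL hA2 (fun w hw => hs w (List.mem_cons_of_mem _ hw))
    show 2 ^ lp e (u, (pr t).1) (u, (pr t).2.1) *
      (2 ^ lp (join e (u, (pr t).1) (u, (pr t).2.1)) (u, (pr t).2.2.1) (u, (pr t).2.2.2) *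
      G3cnt (dts L.toFinset) (sm e u t) _) = 2 ^ (ls e u t + kl s L (sm e u t))
    rw [h3, ls]
    ring

theorem G3 : G3_stmt := by
  classical
  intro V _ _ L e s hn hA hs
  have h := G3_main s L e hn hA hs.2.2
  rw [← h]
  unfold G3cnt
  congr 1
  ext f
  rw [mem_G3set]
  simp only [mem_filter, mem_univ, true_and, dts, mem_product, List.mem_toFinset, and_true]

end CT
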